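import Mathlib
import Pool.Agent.N922.PY.Stm

set_option autoImplicit false

open Polynomial

namespace Pool.Agent.N950.PY

lemma deg2 {R : Type*} [CommRing R] {u : R[X]} (hu : u.Monic) (h : u.natDegree = 2) :
    u = X ^ 2 + (C (u.coeff 1) * X + C (u.coeff 0)) := by
  conv_lhs => rw [hu.as_sum, h]
  rw [Finset.sum_range_succ, Finset.sum_range_succ, Finset.sum_range_zero]
  simp only [pow_zero, pow_one, mul_one, zero_add]
  ring

lemma lin_rem {R : Type*} [CommRing R] [Nontrivial R] {u : R[X]} (hu : u.Monic)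
    (h : u.natDegree = 2) (w : R[X]) : ∃ (q : R[X]) (a b : R), w = u * q + (C a * X + C b) := by
  have hd : (w %ₘ u).natDegree ≤ 1 := by
    have h1 : (w %ₘ u).natDegree < 2 := by
      rw [← h]
      refine natDegree_modByMonic_lt w hu ?_
      rintro rfl
      rw [natDegree_one] at h
      omega
    omega
  obtain ⟨a, b, hab⟩ := exists_eq_X_add_C_of_natDegree_le_one hd
  refine ⟨w /ₘ u, a, b, ?_⟩
  rw [← hab, add_comm, modByMonic_add_div w u]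

lemma zmod4 : ∀ s t a b : ZMod 4, (s = 1 ∨ s = 3) → (t = 1 ∨ t = 3) →
    s ^ 4 - 3 * s ^ 2 * t + t ^ 2 + s ^ 2 - t - s + 1 = 2 * a * b - s * b ^ 2 →
    s ^ 3 * t - 2 * s * t ^ 2 + s * t - t + 1 = a ^ 2 - t * b ^ 2 → False := by
  decide

lemma odd_form (s : ℤ_[2]) (h : PadicInt.toZMod s = 1) : ∃ c : ℤ_[2], s = 1 + 2 * c := by
  have h1 : s - 1 ∈ RingHom.ker (PadicInt.toZMod : ℤ_[2] →+* ZMod 2) := by
    rw [RingHom.mem_ker, map_sub, map_one, h, sub_self]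
  rw [PadicInt.ker_toZMod, PadicInt.maximalIdeal_eq_span_p, Ideal.mem_span_singleton] at h1
  obtain ⟨c, hc⟩ := h1
  refine ⟨c, ?_⟩
  have hc' : s - 1 = 2 * c := by simpa using hc
  rw [← hc']; ring

lemma odd_cases (s : ℤ_[2]) (h : PadicInt.toZMod s = 1) :
    PadicInt.toZModPow 2 s = (1 : ZMod 4) ∨ PadicInt.toZModPow 2 s = (3 : ZMod 4) := by
  obtain ⟨c, rfl⟩ := odd_form s h
  have key : ∀ z : ZMod 4, 1 + 2 * z = 1 ∨ 1 + 2 * z = 3 := by decide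
  have e : PadicInt.toZModPow 2 (1 + 2 * c) = (1 + 2 * PadicInt.toZModPow 2 c : ZMod (2 ^ 2)) := by
    rw [map_add, map_mul, map_one, map_ofNat]
  rw [e]
  exact key (PadicInt.toZModPow 2 c)

lemma odd_norm (s : ℤ_[2]) (h : PadicInt.toZMod s = 1) : ‖s‖ = 1 := by
  rw [← PadicInt.isUnit_iff]
  by_contra hu
  have h1 : s ∈ IsLocalRing.maximalIdeal ℤ_[2] := (IsLocalRing.mem_maximalIdeal s).2 hu
  rw [← PadicInt.ker_toZMod, RingHom.mem_ker, h] at h1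
  exact one_ne_zero h1

lemma norm_case (r0 r1 : ℚ_[2]) (s t A B : ℤ_[2]) (hs : ‖s‖ = 1) (ht : ‖t‖ = 1)
    (hA : (A : ℚ_[2]) = 2 * r0 * r1 - s * r1 ^ 2) (hB : (B : ℚ_[2]) = r0 ^ 2 - t * r1 ^ 2) :
    ‖r0‖ ≤ 1 ∧ ‖r1‖ ≤ 1 := by
  have hA' : ‖2 * r0 * r1 - s * r1 ^ 2‖ ≤ 1 := hA ▸ PadicInt.norm_le_one A
  have hB' : ‖r0 ^ 2 - t * r1 ^ 2‖ ≤ 1 := hB ▸ PadicInt.norm_le_one B
  have hs' : ‖(s : ℚ_[2])‖ = 1 := hs
  have ht' : ‖(t : ℚ_[2])‖ = 1 := ht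
  have h1 : ‖(t : ℚ_[2]) * r1 ^ 2‖ = ‖r1‖ ^ 2 := by rw [norm_mul, norm_pow, ht', one_mul]
  have h2 : ‖(s : ℚ_[2]) * r1 ^ 2‖ = ‖r1‖ ^ 2 := by rw [norm_mul, norm_pow, hs', one_mul]
  by_cases he : ‖r0‖ = ‖r1‖
  · by_cases hR : ‖r1‖ = 0
    · rw [he, hR]; exact ⟨by norm_num, by norm_num⟩
    have hR' : 0 < ‖r1‖ := lt_of_le_of_ne (norm_nonneg _) (Ne.symm hR)
    have h3 : ‖2 * r0 * r1‖ = ‖r1‖ ^ 2 / 2 := by
      rw [norm_mul, norm_mul, he]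
      have : ‖(2 : ℚ_[2])‖ = 1 / 2 := by
        have := Padic.norm_p (p := 2)
        simpa using this
      rw [this]; ring
    have h4 : ‖2 * r0 * r1 - s * r1 ^ 2‖ = ‖r1‖ ^ 2 := by
      have hne : ‖2 * r0 * r1‖ ≠ ‖-((s : ℚ_[2]) * r1 ^ 2)‖ := by
        rw [norm_neg, h2, h3]
        have : 0 < ‖r1‖ ^ 2 := by positivity
        linarith
      rw [sub_eq_add_neg, Padic.add_eq_max_of_ne hne, norm_neg, h2, h3]
      exact max_eq_right (by nlinarith)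
    rw [h4] at hA'
    have : ‖r1‖ ≤ 1 := by nlinarith
    exact ⟨he ▸ this, this⟩
  · have h5 : ‖r0 ^ 2‖ ≠ ‖-((t : ℚ_[2]) * r1 ^ 2)‖ := by
      rw [norm_neg, h1, norm_pow]
      intro h
      exact he ((pow_left_inj₀ (norm_nonneg _) (norm_nonneg _) two_ne_zero).1 h)
    rw [sub_eq_add_neg, Padic.add_eq_max_of_ne h5, norm_neg, h1, norm_pow, max_le_iff] at hB'
    exact ⟨by nlinarith [norm_nonneg r0, hB'.1], by nlinarith [norm_nonneg r1, hB'.2]⟩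

theorem reg_aux (f u : ℤ_[2][X]) (w : ℚ_[2][X])
    (hf : C 4 ∣ f - (X ^ 5 + X ^ 3 + X ^ 2 + X + 1)) (hu : u.Monic) (hdeg : u.natDegree = 2)
    (hr : u.map (PadicInt.toZMod (p := 2)) = X ^ 2 + X + 1) :
    ¬ u.map (algebraMap ℤ_[2] ℚ_[2]) ∣ f.map (algebraMap ℤ_[2] ℚ_[2]) - w ^ 2 := by
  intro hdvd
  obtain ⟨s, hs⟩ : ∃ s, s = u.coeff 1 := ⟨_, rfl⟩
  obtain ⟨t, ht⟩ : ∃ t, t = u.coeff 0 := ⟨_, rfl⟩
  have hu' : u = X ^ 2 + (C s * X + C t) := by rw [hs, ht]; exact deg2 hu hdeg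
  have hs1 : PadicInt.toZMod s = 1 := by
    have := congrArg (fun q => q.coeff 1) hr
    simp only [coeff_map, ← hs] at this
    rw [this]
    simp [coeff_X, coeff_one, coeff_X_pow]
  have ht1 : PadicInt.toZMod t = 1 := by
    have := congrArg (fun q => q.coeff 0) hr
    simp only [coeff_map, ← ht] at this
    rw [this]
    simp [coeff_X, coeff_one, coeff_X_pow]
  have hsn := odd_norm s hs1
  have htn := odd_norm t ht1
  obtain ⟨g, hg⟩ := hf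
  obtain ⟨Q1, g1, g0, hQ1⟩ := lin_rem hu hdeg g
  obtain ⟨uK, huK⟩ : ∃ uK, uK = u.map (algebraMap ℤ_[2] ℚ_[2]) := ⟨_, rfl⟩
  have huKm : uK.Monic := huK ▸ hu.map _
  have huKd : uK.natDegree = 2 := by rw [huK, hu.natDegree_map, hdeg]
  have huK' : uK = X ^ 2 + (C (s : ℚ_[2]) * X + C (t : ℚ_[2])) := by
    rw [huK, hu']
    simp
  obtain ⟨q, r1, r0, hq⟩ := lin_rem huKm huKd w
  obtain ⟨A, hA⟩ : ∃ A : ℤ_[2], A = s ^ 4 - 3 * s ^ 2 * t + t ^ 2 + s ^ 2 - t - s + 1 + 4 * g1 :=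
    ⟨_, rfl⟩
  obtain ⟨B, hB⟩ : ∃ B : ℤ_[2], B = s ^ 3 * t - 2 * s * t ^ 2 + s * t - t + 1 + 4 * g0 := ⟨_, rfl⟩
  have hfQ : ∃ Q : ℤ_[2][X], f = u * Q + (C A * X + C B) := by
    refine ⟨X ^ 3 - C s * X ^ 2 + (C (s ^ 2 - t + 1)) * X + C (-s ^ 3 + 2 * s * t - s + 1) +
      C 4 * Q1, ?_⟩
    have h1 : f = X ^ 5 + X ^ 3 + X ^ 2 + X + 1 + C 4 * (u * Q1 + (C g1 * X + C g0)) := by
      rw [← hQ1, ← hg]; ring
    rw [h1, hA, hB]
    simp only [map_add, map_sub, map_mul, map_pow, map_neg, map_one, C_ofNat]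
    rw [hu']
    ring
  obtain ⟨Q, hQ⟩ := hfQ
  have hfK : f.map (algebraMap ℤ_[2] ℚ_[2]) = uK * Q.map (algebraMap ℤ_[2] ℚ_[2]) +
      (C (A : ℚ_[2]) * X + C (B : ℚ_[2])) := by
    conv_lhs => rw [hQ]
    rw [huK]
    simp
  have hd2 : uK ∣ C ((A : ℚ_[2]) - (2 * r0 * r1 - s * r1 ^ 2)) * X +
      C ((B : ℚ_[2]) - (r0 ^ 2 - t * r1 ^ 2)) := by
    rw [← huK] at hdvd
    have h1 : C ((A : ℚ_[2]) - (2 * r0 * r1 - s * r1 ^ 2)) * X +
        C ((B : ℚ_[2]) - (r0 ^ 2 - t * r1 ^ 2)) = (f.map (algebraMap ℤ_[2] ℚ_[2]) - w ^ 2) +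
        uK * (-Q.map (algebraMap ℤ_[2] ℚ_[2]) + uK * q ^ 2 + 2 * q * (C r1 * X + C r0) +
          C (r1 ^ 2)) := by
      rw [hfK, hq]
      simp only [map_sub, map_mul, map_pow, C_ofNat]
      have h2 : (C r1 * X + C r0 : ℚ_[2][X]) ^ 2 = uK * C r1 ^ 2 +
          ((2 * C r0 * C r1 - C (s : ℚ_[2]) * C r1 ^ 2) * X +
            (C r0 ^ 2 - C (t : ℚ_[2]) * C r1 ^ 2)) := by
        rw [huK']; ring
      linear_combination h2
    rw [h1]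
    exact dvd_add hdvd (dvd_mul_right _ _)
  have hz : C ((A : ℚ_[2]) - (2 * r0 * r1 - s * r1 ^ 2)) * X +
      C ((B : ℚ_[2]) - (r0 ^ 2 - t * r1 ^ 2)) = 0 := by
    by_contra hne
    refine huKm.not_dvd_of_natDegree_lt hne ?_ hd2
    rw [huKd]
    exact lt_of_le_of_lt natDegree_linear_le (by norm_num)
  have hz1 := congrArg (fun q => q.coeff 1) hz
  have hz0 := congrArg (fun q => q.coeff 0) hz
  simp only [coeff_add, coeff_C_mul, coeff_X_one, coeff_C_succ, coeff_X_zero, coeff_C_zero,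
    coeff_zero, mul_one, mul_zero, add_zero, zero_add] at hz1 hz0
  have eA : (A : ℚ_[2]) = 2 * r0 * r1 - s * r1 ^ 2 := sub_eq_zero.1 (by simpa using hz1)
  have eB : (B : ℚ_[2]) = r0 ^ 2 - t * r1 ^ 2 := sub_eq_zero.1 (by simpa using hz0)
  obtain ⟨n0, n1⟩ := norm_case r0 r1 s t A B hsn htn eA eB
  obtain ⟨a, ha⟩ : ∃ a : ℤ_[2], (a : ℚ_[2]) = r0 := ⟨⟨r0, n0⟩, rfl⟩
  obtain ⟨b, hb⟩ : ∃ b : ℤ_[2], (b : ℚ_[2]) = r1 := ⟨⟨r1, n1⟩, rfl⟩
  have eA' : A = 2 * a * b - s * b ^ 2 := by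
    rw [← ha, ← hb] at eA
    apply Subtype.ext
    change _ = PadicInt.Coe.ringHom (2 * a * b - s * b ^ 2)
    simp only [map_sub, map_mul, map_pow, map_ofNat]
    exact eA
  have eB' : B = a ^ 2 - t * b ^ 2 := by
    rw [← ha, ← hb] at eB
    apply Subtype.ext
    change _ = PadicInt.Coe.ringHom (a ^ 2 - t * b ^ 2)
    simp only [map_sub, map_mul, map_pow]
    exact eB
  rw [hA] at eA'
  rw [hB] at eB'
  have four : (PadicInt.toZModPow 2 (4 : ℤ_[2]) : ZMod (2 ^ 2)) = 0 := by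
    rw [map_ofNat]; rfl
  have fA := congrArg (PadicInt.toZModPow (p := 2) 2) eA'
  have fB := congrArg (PadicInt.toZModPow (p := 2) 2) eB'
  simp only [map_add, map_sub, map_mul, map_pow, map_one, four, zero_mul, add_zero, map_ofNat]
    at fA fB
  exact zmod4 _ _ _ _ (odd_cases s hs1) (odd_cases t ht1) fA fB

theorem reg : Pool.Agent.N922.PY.S_REG := by
  intro f u w hf hu hdeg hr
  refine reg_aux f u w ?_ hu hdeg hr
  rw [C_dvd_iff_dvd_coeff]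
  intro j
  have h1 : (X ^ 5 + X ^ 3 + X ^ 2 + X + 1 : ℤ_[2][X]) =
      Pool.Agent.N922.PY.f0.map (Int.castRingHom ℤ_[2]) := by
    simp [Pool.Agent.N922.PY.f0]
  rw [coeff_sub, h1, coeff_map]
  exact hf.four j

end Pool.Agent.N950.PY
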